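import Pool.Agent.H89.DF.TargetsB

/-!
# DIHEDRAL: separated real numbers
-/

set_option autoImplicit false

open MeasureTheory Set Filter
open scoped Real Matrix MatrixGroups
open Pool.Agent.H31.CN Pool.Agent.H89.FM Pool.Agent.H89.FC Pool.Agent.H89.DF

namespace Pool.Agent.H91.DF

/-- (SEP) -/
theorem pf_SEP : T_SEP := by
  intro F a b c hc hab hF hsep
  have hinj : Set.InjOn (fun x : ℝ => ⌊(x - a) / c⌋₊) F := by
    intro x hx y hy hxy
    by_contra hne
    have h1 := hsep x hx y hy hne
    have hx0 : 0 ≤ (x - a) / c := div_nonneg (sub_nonneg.2 (hF x hx).1) hc.le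
    have hy0 : 0 ≤ (y - a) / c := div_nonneg (sub_nonneg.2 (hF y hy).1) hc.le
    have hx1 := Nat.floor_le hx0
    have hx2 := Nat.lt_floor_add_one ((x - a) / c)
    have hy1 := Nat.floor_le hy0
    have hy2 := Nat.lt_floor_add_one ((y - a) / c)
    simp only at hxy
    rw [hxy] at hx1 hx2
    have h2 : |(x - a) / c - (y - a) / c| < 1 := by
      rw [abs_lt]
      constructor <;> linarith
    have h3 : (x - a) / c - (y - a) / c = (x - y) / c := by ring
    rw [h3, abs_div, abs_of_pos hc, div_lt_one hc] at h2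
    linarith
  have hmaps : ∀ x ∈ F, (fun x : ℝ => ⌊(x - a) / c⌋₊) x ∈ Finset.range (⌊(b - a) / c⌋₊ + 1) := by
    intro x hx
    rw [Finset.mem_range, Nat.lt_succ_iff]
    apply Nat.floor_le_floor
    apply div_le_div_of_nonneg_right _ hc.le
    linarith [(hF x hx).2]
  have hcard := Finset.card_le_card_of_injOn _ hmaps hinj
  rw [Finset.card_range] at hcard
  have h0 : 0 ≤ (b - a) / c := div_nonneg (sub_nonneg.2 hab) hc.le
  have h4 : (F.card : ℝ) ≤ ((⌊(b - a) / c⌋₊ + 1 : ℕ) : ℝ) := by exact_mod_cast hcard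
  push_cast at h4
  linarith [Nat.floor_le h0]

end Pool.Agent.H91.DF
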