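import Pool.Agent.H89.DF.TargetsB
import Pool.Agent.H23.DF.Basic

/-!
# DIHEDRAL: the local factor converges and is holomorphic
-/

set_option autoImplicit false

open MeasureTheory Set Filter
open scoped Real Matrix MatrixGroups Topology
open Pool.Agent.H31.CN Pool.Agent.H89.FM Pool.Agent.H89.FC Pool.Agent.H89.DF

namespace Pool.Agent.H91.DF

theorem crr_hasDeriv (κ : ℕ) (m : ℤ) (ν : ℝ) (s₀ : ℂ) (hs : 0 < s₀.re) :
    DifferentiableAt ℂ (crr κ m ν) s₀ := by
  have hcp : ∀ τ : ℝ, 0 < Real.cosh τ := fun τ => by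
    have := Pool.Agent.H23.DF.cosh_one τ
    linarith
  have hcc : ∀ τ : ℝ, ((Real.cosh τ : ℝ) : ℂ) ≠ 0 := fun τ => by
    exact_mod_cast (hcp τ).ne'
  have hσ : 0 < s₀.re / 2 := by linarith
  have key := hasDerivAt_integral_of_dominated_loc_of_deriv_le (μ := volume)
    (F := fun (s : ℂ) (τ : ℝ) => trr κ m τ * ((Real.cosh τ : ℝ) : ℂ) ^ (-s) *
      Complex.exp (-(((ν * τ : ℝ) : ℂ) * Complex.I)))
    (F' := fun (s : ℂ) (τ : ℝ) => trr κ m τ * (((Real.cosh τ : ℝ) : ℂ) ^ (-s) *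
      Complex.log ((Real.cosh τ : ℝ) : ℂ) * (-1)) *
      Complex.exp (-(((ν * τ : ℝ) : ℂ) * Complex.I)))
    (x₀ := s₀) (s := Metric.ball s₀ (s₀.re / 2))
    (bound := fun τ => (4 / s₀.re) * Real.cosh τ ^ (-(s₀.re / 4)))
    (Metric.ball_mem_nhds _ hσ)
    (Eventually.of_forall fun s => (Pool.Agent.H23.DF.cont_integrand κ m ν s).aestronglyMeasurable)
    (Integrable.mono' (Pool.Agent.H23.DF.cosh_int hs)
      (Pool.Agent.H23.DF.cont_integrand κ m ν s₀).aestronglyMeasurable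
      (ae_of_all _ (Pool.Agent.H23.DF.norm_integrand_le κ m ν s₀)))
    ?_ ?_ ?_ ?_
  · exact key.2.differentiableAt
  · refine Continuous.aestronglyMeasurable ?_
    refine ((Pool.Agent.H23.DF.cont_trr κ m).mul
      (((Pool.Agent.H23.DF.cont_cosh_cpow (-s₀)).mul ?_).mul continuous_const)).mul
      (Pool.Agent.H23.DF.cont_expi ν)
    have h : (fun τ : ℝ => Complex.log ((Real.cosh τ : ℝ) : ℂ)) =
        fun τ : ℝ => ((Real.log (Real.cosh τ) : ℝ) : ℂ) := by
      funext τ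
      rw [Complex.ofReal_log (hcp τ).le]
    rw [h]
    exact Complex.continuous_ofReal.comp
      (Real.continuous_cosh.log fun τ => (hcp τ).ne')
  · refine ae_of_all _ fun τ s hmem => ?_
    have h1 := Pool.Agent.H23.DF.cosh_one τ
    have hre : s₀.re / 2 ≤ s.re := by
      have h2 : ‖s - s₀‖ < s₀.re / 2 := by
        rw [← dist_eq_norm]
        exact hmem
      have h3 := (Complex.abs_re_le_norm (s - s₀)).trans_lt h2
      rw [Complex.sub_re, abs_lt] at h3
      linarith [h3.1]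
    rw [norm_mul, norm_mul, norm_mul, norm_mul, Pool.Agent.H23.DF.norm_expi,
      Pool.Agent.H23.DF.norm_cosh_cpow, mul_one, Complex.neg_re, norm_neg, norm_one, mul_one]
    have hlog : ‖Complex.log ((Real.cosh τ : ℝ) : ℂ)‖ = Real.log (Real.cosh τ) := by
      rw [← Complex.ofReal_log (hcp τ).le, Complex.norm_real, Real.norm_eq_abs,
        abs_of_nonneg (Real.log_nonneg h1)]
    rw [hlog]
    have hl : Real.log (Real.cosh τ) ≤ Real.cosh τ ^ (s₀.re / 4) / (s₀.re / 4) :=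
      Real.log_le_rpow_div (hcp τ).le (by linarith)
    have hp : Real.cosh τ ^ (-s.re) ≤ Real.cosh τ ^ (-(s₀.re / 2)) :=
      Real.rpow_le_rpow_of_exponent_le h1 (by linarith)
    have hp0 : 0 ≤ Real.cosh τ ^ (-s.re) := Real.rpow_nonneg (hcp τ).le _
    have hl0 : 0 ≤ Real.log (Real.cosh τ) := Real.log_nonneg h1
    calc ‖trr κ m τ‖ * (Real.cosh τ ^ (-s.re) * Real.log (Real.cosh τ))
        ≤ 1 * (Real.cosh τ ^ (-(s₀.re / 2)) * (Real.cosh τ ^ (s₀.re / 4) / (s₀.re / 4))) := by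
          refine mul_le_mul (Pool.Agent.H23.DF.norm_trr_le κ m τ) ?_ (mul_nonneg hp0 hl0)
            zero_le_one
          exact mul_le_mul hp hl hl0 (Real.rpow_nonneg (hcp τ).le _)
      _ = (4 / s₀.re) * Real.cosh τ ^ (-(s₀.re / 4)) := by
          have e : Real.cosh τ ^ (-(s₀.re / 2)) * Real.cosh τ ^ (s₀.re / 4) =
              Real.cosh τ ^ (-(s₀.re / 4)) := by
            rw [← Real.rpow_add (hcp τ)]
            congr 1
            ring
          rw [one_mul, ← mul_div_assoc, e]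
          field_simp
  · exact (Pool.Agent.H23.DF.cosh_int (by linarith)).const_mul _
  · refine ae_of_all _ fun τ s _ => ?_
    have h1 : HasDerivAt (fun s : ℂ => -s) (-1) s := (hasDerivAt_id s).neg
    have h2 := h1.const_cpow (c := ((Real.cosh τ : ℝ) : ℂ)) (Or.inl (hcc τ))
    exact (h2.const_mul (trr κ m τ)).mul_const _

/-- (CRI) -/
theorem pf_CRI (_hTRA : T_TRA) : T_CRI := by
  intro κ m ν
  refine ⟨fun s hs => (crr_hasDeriv κ m ν s hs).differentiableWithinAt, fun s hs => ?_⟩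
  exact ⟨Pool.Agent.H23.DF.cosh_int hs, Integrable.mono' (Pool.Agent.H23.DF.cosh_int hs)
      (Pool.Agent.H23.DF.cont_integrand κ m ν s).aestronglyMeasurable
      (ae_of_all _ (Pool.Agent.H23.DF.norm_integrand_le κ m ν s))⟩

end Pool.Agent.H91.DF
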